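import Pool.Agent.Helper39.Rot.Defs

set_option autoImplicit false

namespace Pool.Agent.Helper73.RotI

theorem inverse_analytic (f : ℝ → ℝ) (hf : ∀ x, AnalyticAt ℝ f x) (hd : ∀ x, 0 < deriv f x)
    (hp : ∀ x, f (x + 1) = f x + 1) :
    ∃ g : ℝ → ℝ, (∀ x, AnalyticAt ℝ g x) ∧ (∀ x, 0 < deriv g x) ∧ (∀ x, g (x + 1) = g x + 1) ∧
      (∀ x, g (f x) = x) ∧ (∀ x, f (g x) = x) := by
  have hmono : StrictMono f := strictMono_of_deriv_pos hd
  have hcont : Continuous f := continuous_iff_continuousAt.2 fun x => (hf x).continuousAt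
  have hn : ∀ (n : ℕ) (x : ℝ), f (x + n) = f x + n := by
    intro n
    induction n with
    | zero => intro x; simp
    | succ n ih => intro x; push_cast; rw [← add_assoc, hp, ih]; ring
  have hsurj : Function.Surjective f := by
    intro y
    obtain ⟨n, hn1⟩ := exists_nat_ge (|y| + |f 0|)
    have e1 := hn n 0
    have e2 := hn n (-(n : ℝ))
    simp only [zero_add] at e1
    rw [neg_add_cancel] at e2
    have a1 := abs_le.1 (le_refl |y|)
    have a2 := abs_le.1 (le_refl |f 0|)
    exact mem_range_of_exists_le_of_exists_ge hcont ⟨-(n : ℝ), by linarith⟩ ⟨(n : ℝ), by linarith⟩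
  let e : ℝ ≃o ℝ := StrictMono.orderIsoOfSurjective f hmono hsurj
  have he : ∀ x, e x = f x := fun x => rfl
  let h : ℝ ≃ₜ ℝ := e.toHomeomorph
  have hh : ∀ x, h x = f x := fun x => rfl
  have hfun : (h : ℝ → ℝ) = f := funext hh
  have hder : ∀ x, HasDerivAt h (deriv f x) x := by
    intro x
    rw [hfun]
    exact (hf x).differentiableAt.hasDerivAt
  have hcd : ContDiff ℝ ⊤ (h : ℝ → ℝ) := by
    rw [hfun, contDiff_iff_contDiffAt]
    intro x
    exact (hf x).contDiffAt
  have hsymm : ContDiff ℝ ⊤ (h.symm : ℝ → ℝ) :=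
    Homeomorph.contDiff_symm_deriv h (f' := deriv f) (fun x => (hd x).ne') hder hcd
  have hgf : ∀ x, h.symm (f x) = x := by
    intro x
    have := h.symm_apply_apply x
    rwa [hh] at this
  have hfg : ∀ x, f (h.symm x) = x := by
    intro x
    have := h.apply_symm_apply x
    rwa [hh] at this
  refine ⟨h.symm, ?_, ?_, ?_, hgf, hfg⟩
  · intro x
    exact (contDiff_iff_contDiffAt.1 hsymm x).analyticAt
  · intro x
    have h1 : HasDerivAt (h.symm : ℝ → ℝ) (deriv f (h.symm x))⁻¹ x := by
      apply HasDerivAt.of_local_left_inverse (f := f)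
      · exact h.symm.continuous.continuousAt
      · exact (hf _).differentiableAt.hasDerivAt
      · exact (hd _).ne'
      · exact Filter.Eventually.of_forall hfg
    rw [h1.deriv]
    exact inv_pos.2 (hd _)
  · intro x
    apply hmono.injective
    rw [hfg, hp, hfg]

end Pool.Agent.Helper73.RotI
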